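import Mathlib

set_option autoImplicit false

/-! The splitting process: a supply of strings is cut down while two tables grow. -/

namespace Pool.Agent.H.MP_d04dff_lc

abbrev Str := List Bool
abbrev Pr := Str × Str
abbrev St := List Str × List Pr × List Pr × ℕ

section core

variable (P : List Pr) (N : ℕ → Str → Pr → Bool)

def piece (S : List Str) (j : ℕ) : List Str :=
  (S.drop (j * (S.length / (P.length + 1)))).take (S.length / (P.length + 1))

def keep (σ : St) (a : Pr) : List Str := (piece P σ.1 P.length).filter fun y => N σ.2.2.2 y a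

def good (σ : St) (a : Pr) : Bool := (σ.2.2.1.lookup a.1).isNone &&
  decide (σ.1.length / (P.length + 1) ≤ P.length * (keep P N σ a).length)

def stay (σ : St) : St :=
  if P.findIdx (good P N σ) < P.length then
    (keep P N σ (P.getD (P.findIdx (good P N σ)) ([], [])), σ.2.1,
      P.getD (P.findIdx (good P N σ)) ([], []) :: σ.2.2.1, 0)
  else (σ.1, σ.2.1, σ.2.2.1, σ.2.2.2 + 1)

def step (j : ℕ) (σ : St) : St :=
  if j < P.length then (piece P σ.1 j, P.getD j ([], []) :: σ.2.1, σ.2.2.1, 0) else stay P N σ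

def trV (S : List Str) (x : Str) : ℕ → St
  | 0 => (S, [], [], 0)
  | t + 1 => step P N ((trV S x t).1.idxOf x / ((trV S x t).1.length / (P.length + 1))) (trV S x t)

def trW (S : List Str) (G : ℕ → Pr → Bool) : ℕ → St
  | 0 => (S, [], [], 0)
  | t + 1 => step P N (P.findIdx fun a => ((trW S G t).2.1.lookup a.1).isNone && G t a) (trW S G t)

theorem piece_len (S : List Str) {j : ℕ} (h : j ≤ P.length) :
    (piece P S j).length = S.length / (P.length + 1) := by
  rw [piece, List.length_take, List.length_drop, min_eq_left]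
  have h1 := Nat.div_mul_le_self S.length (P.length + 1)
  have h2 := Nat.mul_le_mul_right (S.length / (P.length + 1)) h
  rw [Nat.mul_add, Nat.mul_comm] at h1
  omega

theorem piece_sub (S : List Str) (j : ℕ) : (piece P S j).Sublist S :=
  (List.take_sublist _ _).trans (List.drop_sublist _ _)

theorem piece_idx {S : List Str} (hS : S.Nodup) {j : ℕ} {x : Str} (hx : x ∈ piece P S j) :
    S.idxOf x / (S.length / (P.length + 1)) = j := by
  obtain ⟨i, hi, rfl⟩ := List.mem_iff_getElem.1 hx
  simp only [piece, List.getElem_take, List.getElem_drop] at hi ⊢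
  rw [List.length_take] at hi
  have h2 : i < S.length / (P.length + 1) := lt_of_lt_of_le hi (min_le_left _ _)
  rw [hS.idxOf_getElem, Nat.add_comm, Nat.add_mul_div_right _ _ (by omega), Nat.div_eq_of_lt h2,
    Nat.zero_add]

theorem stay_cases (σ : St) :
    (∃ a ∈ P, good P N σ a = true ∧ stay P N σ = (keep P N σ a, σ.2.1, a :: σ.2.2.1, 0)) ∨
    ((∀ a ∈ P, good P N σ a = false) ∧ stay P N σ = (σ.1, σ.2.1, σ.2.2.1, σ.2.2.2 + 1)) := by
  unfold stay
  split_ifs with h
  · refine Or.inl ⟨P[P.findIdx (good P N σ)], List.getElem_mem _, List.findIdx_getElem, ?_⟩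
    rw [List.getD_eq_getElem _ _ h]
  · refine Or.inr ⟨fun a ha => ?_, rfl⟩
    by_contra c
    exact h (List.findIdx_lt_length_of_exists ⟨a, ha, by simpa using c⟩)

theorem step_mono (j : ℕ) (σ : St) : (step P N j σ).1.Sublist σ.1 ∧ σ.2.1 ⊆ (step P N j σ).2.1 ∧
    σ.2.2.1 ⊆ (step P N j σ).2.2.1 := by
  unfold step
  split_ifs with h
  · exact ⟨piece_sub _ _ _, List.subset_cons_self _ _, List.Subset.refl _⟩
  · rcases stay_cases P N σ with ⟨a, -, -, e⟩ | ⟨-, e⟩ <;> rw [e]
    · exact ⟨List.filter_sublist.trans (piece_sub _ _ _), List.Subset.refl _,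
        List.subset_cons_self _ _⟩
    · exact ⟨List.Sublist.refl _, List.Subset.refl _, List.Subset.refl _⟩

def free (T : List Pr) : ℕ :=
  ((P.map Prod.fst).toFinset.filter fun p => (T.lookup p).isNone = true).card

theorem free_lt {T : List Pr} {a : Pr} (ha : a ∈ P) (h : (T.lookup a.1).isNone = true) :
    free P (a :: T) < free P T := by
  refine Finset.card_lt_card ⟨fun p hp => ?_, fun c => ?_⟩
  · simp only [Finset.mem_filter] at hp ⊢
    refine ⟨hp.1, ?_⟩
    have := hp.2
    rw [List.lookup_cons] at this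
    split at this
    · simp at this
    · exact this
  · have := c (show a.1 ∈ _ from Finset.mem_filter.2
      ⟨List.mem_toFinset.2 (List.mem_map_of_mem ha), h⟩)
    simp at this

def phi (σ : St) : ℕ := free P σ.2.1 + free P σ.2.2.1

theorem lookup_mem {T : List Pr} {p s : Str} (h : T.lookup p = some s) : (p, s) ∈ T := by
  induction T with
  | nil => simp at h
  | cons a T ih =>
    rw [List.lookup_cons] at h
    split at h
    · rename_i c
      simp only [beq_iff_eq] at c
      simp only [Option.some.injEq] at h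
      rw [c, ← h]
      exact List.mem_cons_self
    · exact List.mem_cons_of_mem _ (ih h)

variable {P N} {S : List Str} {G : ℕ → Pr → Bool}

theorem trW_cases (t : ℕ) :
    (∃ j, ∃ h : j < P.length, ((trW P N S G t).2.1.lookup P[j].1).isNone = true ∧
      G t P[j] = true ∧ trW P N S G (t + 1) =
        (piece P (trW P N S G t).1 j, P[j] :: (trW P N S G t).2.1, (trW P N S G t).2.2.1, 0)) ∨
    ((∀ a ∈ P, ((trW P N S G t).2.1.lookup a.1).isNone = true → G t a = false) ∧
      trW P N S G (t + 1) = stay P N (trW P N S G t)) := by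
  rw [trW, step]
  split_ifs with h
  · have := List.findIdx_getElem (w := h)
    rw [Bool.and_eq_true] at this
    exact Or.inl ⟨_, h, this.1, this.2, by rw [List.getD_eq_getElem _ _ h]⟩
  · refine Or.inr ⟨fun a ha h1 => ?_, rfl⟩
    by_contra c
    exact h (List.findIdx_lt_length_of_exists ⟨a, ha, by simpa [h1] using c⟩)

structure Inv (P : List Pr) (N : ℕ → Str → Pr → Bool) (G : ℕ → Pr → Bool) (σ : St) : Prop where
  nd : σ.1.Nodup
  big : (P.length + 1) ^ (2 * phi P σ + 1) ≤ σ.1.length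
  hT : ∀ a ∈ σ.2.2.1, ∀ y ∈ σ.1, ∃ t, N t y a = true
  hG : ∀ a ∈ σ.2.1, ∃ t, G t a = true
  tick : ∀ k < σ.2.2.2, stay P N (σ.1, σ.2.1, σ.2.2.1, k) = (σ.1, σ.2.1, σ.2.2.1, k + 1)

theorem pw {r n e e' : ℕ} (h : (r + 1) ^ (2 * e + 1) ≤ n) (he : e' < e) :
    (r + 1) * (r + 1) ^ (2 * e' + 1) ≤ n / (r + 1) := by
  rw [Nat.le_div_iff_mul_le (by omega)]
  refine le_trans ?_ h
  rw [← pow_succ', ← pow_succ]
  exact Nat.pow_le_pow_right (by omega) (by omega)

theorem inv_step {t : ℕ} (h : Inv P N G (trW P N S G t)) : Inv P N G (trW P N S G (t + 1)) ∧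
    (phi P (trW P N S G (t + 1)) < phi P (trW P N S G t) ∨
      ((∀ a ∈ P, ((trW P N S G t).2.1.lookup a.1).isNone = true → G t a = false) ∧
      trW P N S G (t + 1) = ((trW P N S G t).1, (trW P N S G t).2.1, (trW P N S G t).2.2.1,
        (trW P N S G t).2.2.2 + 1))) := by
  have hm := step_mono P N (P.findIdx fun a => ((trW P N S G t).2.1.lookup a.1).isNone && G t a)
    (trW P N S G t)
  rw [← trW] at hm
  rcases trW_cases (P := P) (N := N) (S := S) (G := G) t with ⟨j, hj, h1, h2, e⟩ | ⟨h1, e⟩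
  · have h3 : phi P (trW P N S G (t + 1)) < phi P (trW P N S G t) := by
      rw [e]
      exact Nat.add_lt_add_right (free_lt P (List.getElem_mem _) h1) _
    refine ⟨⟨h.nd.sublist hm.1, ?_, ?_, ?_, by rw [e]; simp⟩, Or.inl h3⟩
    · have := pw h.big h3
      rw [← piece_len P _ hj.le] at this
      refine le_trans (le_trans (Nat.le_mul_of_pos_left _ (by omega)) this) (by rw [e])
    · intro a ha y hy
      rw [e] at ha
      exact h.hT a ha y (hm.1.subset hy)
    · intro a ha
      rw [e] at ha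
      rcases List.mem_cons.1 ha with rfl | ha
      exacts [⟨t, h2⟩, h.hG a ha]
  · rcases stay_cases P N (trW P N S G t) with ⟨a, ha, hg, e'⟩ | ⟨hg, e'⟩ <;> rw [e'] at e
    · rw [good, Bool.and_eq_true, decide_eq_true_eq] at hg
      have h3 : phi P (trW P N S G (t + 1)) < phi P (trW P N S G t) := by
        rw [e]
        exact Nat.add_lt_add_left (free_lt P ha hg.1) _
      refine ⟨⟨h.nd.sublist hm.1, ?_, ?_, by rw [e]; exact h.hG, by rw [e]; simp⟩, Or.inl h3⟩
      · have := (pw h.big h3).trans (hg.2.trans (Nat.mul_le_mul_right _ (Nat.le_succ _)))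
        refine le_trans (Nat.le_of_mul_le_mul_left this (by omega)) (by rw [e])
      · intro b hb y hy
        have hy' := hm.1.subset hy
        rw [e] at hb hy
        rcases List.mem_cons.1 hb with rfl | hb
        · exact ⟨_, (List.mem_filter.1 hy).2⟩
        · exact h.hT b hb y hy'
    · refine ⟨?_, Or.inr ⟨h1, e⟩⟩
      rw [e]
      refine ⟨h.nd, h.big, h.hT, h.hG, fun k hk => ?_⟩
      rcases Nat.lt_succ_iff_lt_or_eq.1 hk with hk | rfl
      exacts [h.tick k hk, e']

theorem ticks {x : Str} {σ : St} {t u : ℕ} (nd : σ.1.Nodup) (hx : x ∈ piece P σ.1 P.length)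
    (h : ∀ k < u, stay P N (σ.1, σ.2.1, σ.2.2.1, k) = (σ.1, σ.2.1, σ.2.2.1, k + 1))
    (e : trV P N S x t = (σ.1, σ.2.1, σ.2.2.1, 0)) : ∀ k ≤ u,
      trV P N S x (t + k) = (σ.1, σ.2.1, σ.2.2.1, k) ∧
      trV P N S x (t + k + 1) = stay P N (σ.1, σ.2.1, σ.2.2.1, k) := by
  have key : ∀ t k, trV P N S x t = (σ.1, σ.2.1, σ.2.2.1, k) →
      trV P N S x (t + 1) = stay P N (σ.1, σ.2.1, σ.2.2.1, k) := fun t k e => by
    rw [trV, e, step, piece_idx P nd hx, if_neg (lt_irrefl _)]
  intro k
  induction k with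
  | zero => exact fun _ => ⟨e, key _ _ e⟩
  | succ k ih =>
    intro hk
    have := ((ih (by omega)).2).trans (h k hk)
    exact ⟨this, key _ _ this⟩

theorem follow {x : Str} (hI : ∀ t, Inv P N G (trW P N S G t)) (hx : ∀ t, x ∈ (trW P N S G t).1)
    (t : ℕ) : ∃ t', trV P N S x t' =
      ((trW P N S G t).1, (trW P N S G t).2.1, (trW P N S G t).2.2.1, 0) := by
  induction t with
  | zero => exact ⟨0, rfl⟩
  | succ t ih =>
    obtain ⟨t', ih⟩ := ih
    have hx' := hx (t + 1)
    rcases trW_cases (P := P) (N := N) (S := S) (G := G) t with ⟨j, hj, -, -, e⟩ | ⟨-, e⟩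
    · rw [e] at hx' ⊢
      refine ⟨t' + 1, ?_⟩
      rw [trV, ih, step, piece_idx P (hI t).nd hx', if_pos hj, List.getD_eq_getElem _ _ hj]
    · rcases stay_cases P N (trW P N S G t) with ⟨a, ha, hg, e'⟩ | ⟨hg, e'⟩
      · rw [e, e'] at hx' ⊢
        exact ⟨_, ((ticks (hI t).nd (List.mem_filter.1 hx').1 (hI t).tick ih _ le_rfl).2).trans e'⟩
      · rw [e, e']
        exact ⟨t', ih⟩

theorem pigeon {σ : St} (hq : 0 < σ.1.length / (P.length + 1))
    (h : ∀ y ∈ piece P σ.1 P.length, ∃ a ∈ P, (σ.2.2.1.lookup a.1).isNone = true ∧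
      N σ.2.2.2 y a = true) : ∃ a ∈ P, good P N σ a = true := by
  by_contra c
  have c' : ∀ a ∈ P, (σ.2.2.1.lookup a.1).isNone = true →
      P.length * (keep P N σ a).length < σ.1.length / (P.length + 1) := fun a ha h1 => by
    by_contra c2
    exact c ⟨a, ha, by simpa [good, h1] using c2⟩
  have gen : ∀ (Q : List Pr) (L : List Str), (∀ y ∈ L, ∃ a ∈ Q, N σ.2.2.2 y a = true) →
      L.length ≤ (Q.map fun a => (L.filter fun y => N σ.2.2.2 y a).length).sum := by
    intro Q L hL
    induction L with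
    | nil => simp
    | cons y L ih =>
      obtain ⟨a, ha, hy⟩ := hL y List.mem_cons_self
      have h1 := ih fun z hz => hL z (List.mem_cons_of_mem _ hz)
      refine Nat.succ_le_of_lt (h1.trans_lt (List.sum_lt_sum _ _ (fun b _ => ?_) ⟨a, ha, ?_⟩))
      · exact ((List.sublist_cons_self _ _).filter _).length_le
      · simp [hy]
  let Q := P.filter fun a => (σ.2.2.1.lookup a.1).isNone
  have h1 := gen Q _ fun y hy => let ⟨a, ha, h1, h2⟩ := h y hy; ⟨a, List.mem_filter.2 ⟨ha, h1⟩, h2⟩
  rw [piece_len P _ le_rfl] at h1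
  have h2 : Q.length ≤ P.length := List.length_filter_le _ _
  have h3 := List.sum_le_card_nsmul (Q.map fun a => P.length * (keep P N σ a).length)
    (σ.1.length / (P.length + 1) - 1) (by
      intro z hz
      obtain ⟨a, ha, rfl⟩ := List.mem_map.1 hz
      have := c' a (List.mem_filter.1 ha).1 (List.mem_filter.1 ha).2
      omega)
  rw [List.sum_map_mul_left, List.length_map, smul_eq_mul] at h3
  have h4 := (Nat.mul_le_mul_left P.length h1).trans (h3.trans (Nat.mul_le_mul_right _ h2))
  rcases Nat.eq_zero_or_pos P.length with h0 | h0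
  · have : Q = [] := List.eq_nil_of_length_eq_zero (by omega)
    rw [this] at h1
    simp only [List.map_nil, List.sum_nil] at h1
    omega
  · have := Nat.le_of_mul_le_mul_left h4 h0
    omega

theorem core (nd : S.Nodup) (big : (P.length + 1) ^ (4 * (P.map Prod.fst).toFinset.card + 1) ≤
      S.length) (Nm : ∀ t t' y a, t ≤ t' → N t y a = true → N t' y a = true)
    (Nf : ∀ t t' y p s s', N t y (p, s) = true → N t' y (p, s') = true → s = s')
    (Gm : ∀ t a t', G t a = true → ∃ t'' ≥ t', G t'' a = true)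
    (Gf : ∀ t t' p s s', G t (p, s) = true → G t' (p, s') = true → s = s') :
    ∃ x ∈ S, (∀ a ∈ P, (∃ t, G t a = true) →
        a.2 ∈ Nat.rfindOpt fun t => (trV P N S x t).2.1.lookup a.1) ∧
      (∀ a ∈ P, (∃ t, N t x a = true) →
        a.2 ∈ Nat.rfindOpt fun t => (trW P N S G t).2.2.1.lookup a.1) := by
  have hI : ∀ t, Inv P N G (trW P N S G t) := fun t => by
    induction t with
    | zero =>
      refine ⟨nd, le_trans (Nat.pow_le_pow_right (by omega) ?_) big, by simp [trW], by simp [trW],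
        by simp [trW]⟩
      have : free P [] ≤ (P.map Prod.fst).toFinset.card := Finset.card_filter_le _ _
      simp only [phi, trW]
      omega
    | succ t ih => exact (inv_step ih).1
  have mW : ∀ t t', t ≤ t' → (trW P N S G t').1 ⊆ (trW P N S G t).1 ∧
      (trW P N S G t).2.2.1 ⊆ (trW P N S G t').2.2.1 ∧
      phi P (trW P N S G t') ≤ phi P (trW P N S G t) := fun t t' h => by
    induction h with
    | refl => exact ⟨List.Subset.refl _, List.Subset.refl _, le_rfl⟩
    | @step t' _ ih =>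
      have := step_mono P N (P.findIdx fun a => ((trW P N S G t').2.1.lookup a.1).isNone && G t' a)
        (trW P N S G t')
      rw [← trW] at this
      refine ⟨List.Subset.trans this.1.subset ih.1, List.Subset.trans ih.2.1 this.2.2,
        le_trans ?_ ih.2.2⟩
      rcases (inv_step (hI t')).2 with h | ⟨-, e⟩
      · exact h.le
      · rw [e]; exact le_rfl
  obtain ⟨t₀, ht₀⟩ : ∃ t₀, ∀ t, phi P (trW P N S G t₀) ≤ phi P (trW P N S G t) :=
    ⟨_, fun t => Function.argmin_le (fun t => phi P (trW P N S G t)) t⟩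
  set σ := trW P N S G t₀ with hσ
  have fin : ∀ k, trW P N S G (t₀ + k) = (σ.1, σ.2.1, σ.2.2.1, σ.2.2.2 + k) ∧
      ∀ a ∈ P, (σ.2.1.lookup a.1).isNone = true → G (t₀ + k) a = false := fun k => by
    have key : ∀ k, ¬ phi P (trW P N S G (t₀ + k + 1)) < phi P (trW P N S G (t₀ + k)) := fun k =>
      not_lt.2 ((mW _ _ (Nat.le_add_right _ _)).2.2.trans (ht₀ _))
    have e : trW P N S G (t₀ + k) = (σ.1, σ.2.1, σ.2.2.1, σ.2.2.2 + k) := by
      induction k with
      | zero => rfl
      | succ k ih =>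
        rw [← Nat.add_assoc, ((inv_step (hI _)).2.resolve_left (key k)).2, ih]
        rfl
    have := ((inv_step (hI _)).2.resolve_left (key k)).1
    rw [e] at this
    exact ⟨e, this⟩
  have tk : ∀ k, stay P N (σ.1, σ.2.1, σ.2.2.1, k) = (σ.1, σ.2.1, σ.2.2.1, k + 1) := fun k => by
    have := (hI (t₀ + (k + 1))).tick k
    rw [(fin _).1] at this
    exact this (by dsimp only; omega)
  have hq : 0 < σ.1.length / (P.length + 1) := Nat.div_pos
    (le_trans (Nat.le_self_pow (by omega) _) (hI t₀).big) (by omega)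
  obtain ⟨x, hx, hx2⟩ : ∃ x ∈ piece P σ.1 P.length, ∀ a ∈ P, (σ.2.2.1.lookup a.1).isNone = true →
      ∀ t, ¬ N t x a = true := by
    by_contra c
    push Not at c
    obtain ⟨u, hu⟩ : ∃ u, ∀ y ∈ piece P σ.1 P.length, ∃ a ∈ P,
        (σ.2.2.1.lookup a.1).isNone = true ∧ N u y a = true := by
      generalize piece P σ.1 P.length = L at c
      induction L with
      | nil => simp
      | cons y L ih =>
        obtain ⟨u, hu⟩ := ih fun z hz => c z (List.mem_cons_of_mem _ hz)
        obtain ⟨a, ha, h1, t, h2⟩ := c y List.mem_cons_self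
        refine ⟨max u t, fun z hz => ?_⟩
        rcases List.mem_cons.1 hz with rfl | hz
        · exact ⟨a, ha, h1, Nm _ _ _ _ (le_max_right _ _) h2⟩
        · obtain ⟨b, hb, h3, h4⟩ := hu z hz
          exact ⟨b, hb, h3, Nm _ _ _ _ (le_max_left _ _) h4⟩
    obtain ⟨a, ha, hg⟩ := pigeon (N := N) (σ := (σ.1, σ.2.1, σ.2.2.1, u)) hq hu
    rcases stay_cases P N (σ.1, σ.2.1, σ.2.2.1, u) with ⟨b, -, -, e⟩ | ⟨h, -⟩
    · rw [tk] at e
      simp at e
    · simp [h a ha] at hg
  have hxσ : x ∈ σ.1 := (piece_sub P _ _).subset hx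
  have hxt : ∀ t, x ∈ (trW P N S G t).1 := fun t =>
    (mW t (t₀ + t) (Nat.le_add_left _ _)).1 (by rw [(fin t).1]; exact hxσ)
  have fo : ∀ (f : ℕ → Option Str) (s : Str), (∃ t, ¬ (f t).isNone = true) →
      (∀ t s', f t = some s' → s' = s) → s ∈ Nat.rfindOpt f := fun f s ⟨t, h1⟩ h2 => by
    obtain ⟨s', hs⟩ : ∃ s', f t = some s' := by
      cases h : f t with
      | none => simp [h] at h1
      | some s' => exact ⟨s', rfl⟩
    obtain ⟨s'', h3⟩ := Part.dom_iff_mem.1 (Nat.rfindOpt_dom.2 ⟨t, s', hs⟩)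
    obtain ⟨t', h4⟩ := Nat.rfindOpt_spec h3
    rwa [← h2 t' s'' h4]
  refine ⟨x, hxt 0, fun a ha ⟨t, h⟩ => ?_, fun a ha ⟨t, h⟩ => fo _ _ ⟨t₀, fun c => hx2 a ha c t h⟩
    fun t' s hs => ?_⟩
  · obtain ⟨t', e⟩ := follow hI hxt t₀
    have mV : ∀ u u', u ≤ u' → (trV P N S x u).2.1 ⊆ (trV P N S x u').2.1 := fun u u' h => by
      induction h with
      | refl => exact List.Subset.refl _
      | step _ ih => exact List.Subset.trans ih (step_mono P N _ _).2.1
    refine fo _ _ ⟨t', fun c => ?_⟩ fun u s hs => ?_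
    · rw [e] at c
      obtain ⟨t'', h1, h2⟩ := Gm t a t₀ h
      obtain ⟨k, rfl⟩ := Nat.exists_eq_add_of_le h1
      simp [(fin k).2 a ha c] at h2
    · have h1 := mV u (t' + u) (Nat.le_add_left _ _) (lookup_mem hs)
      rw [(ticks (hI t₀).nd hx (fun k _ => tk k) e u le_rfl).1] at h1
      obtain ⟨v, hv⟩ := (hI t₀).hG _ h1
      exact Gf _ _ _ _ _ hv h
  · obtain ⟨v, hv⟩ := (hI t').hT _ (lookup_mem hs) x (hxt t')
    exact Nf _ _ _ _ _ _ hv h

end core

end Pool.Agent.H.MP_d04dff_lc
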