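import Pool.Agent.H.MP_d04dff_lc.A

set_option autoImplicit false

/-! The splitting process is primitive recursive; lists of short strings; codes. -/

namespace Pool.Agent.H.MP_d04dff_lc

open Primrec

variable {α : Type} [Primcodable α]

theorem beq_prim : Primrec₂ fun a b : Str => a == b :=
  (Primrec.eq (α := Str)).decide.of_eq fun a b => by
    rw [Bool.eq_iff_iff]; simp

theorem look_prim {p : α → Str} {T : α → List Pr} (hp : Primrec p) (hT : Primrec T) :
    Primrec fun a => (T a).lookup (p a) :=
  (list_foldr hT (const none) (h := fun a z => bif p a == z.1.1 then some z.1.2 else z.2)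
    (cond (beq_prim.comp (hp.comp fst) (fst.comp (fst.comp snd)))
      (option_some.comp (snd.comp (fst.comp snd))) (snd.comp snd)).to₂).of_eq fun a => by
    induction T a with
    | nil => rfl
    | cons b T ih =>
      rw [List.foldr_cons, ih, List.lookup_cons]
      cases p a == b.1 <;> rfl

theorem none_prim {p : α → Str} {T : α → List Pr} (hp : Primrec p) (hT : Primrec T) :
    Primrec fun a => ((T a).lookup (p a)).isNone :=
  (Primrec.not.comp (option_isSome.comp (look_prim hp hT))).of_eq fun a => by simp

theorem filt {β : Type} [Primcodable β] {f : α → List β} {p : α → β → Bool} (hf : Primrec f)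
    (hp : Primrec₂ p) : Primrec fun a => (f a).filter (p a) :=
  (listFilterMap hf (g := fun a b => bif p a b then some b else none)
    (cond hp (option_some.comp snd) (const none)).to₂).of_eq fun a => by
    induction f a with
    | nil => rfl
    | cons b l ih => cases h : p a b <;> simp [h, ← ih]

theorem quo_prim {P : α → List Pr} {S : α → List Str} (hP : Primrec P) (hS : Primrec S) :
    Primrec fun a => (S a).length / ((P a).length + 1) :=
  nat_div.comp (list_length.comp hS) (succ.comp (list_length.comp hP))

theorem piece_prim {P : α → List Pr} {S : α → List Str} {j : α → ℕ} (hP : Primrec P)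
    (hS : Primrec S) (hj : Primrec j) : Primrec fun a => piece (P a) (S a) (j a) :=
  list_take.comp (quo_prim hP hS) (list_drop.comp (nat_mul.comp hj (quo_prim hP hS)) hS)

variable {N : ℕ → Str → Pr → Bool} (hN : Primrec fun z : (ℕ × Str) × Pr => N z.1.1 z.1.2 z.2)
include hN

theorem keep_prim {P : α → List Pr} {σ : α → St} {b : α → Pr} (hP : Primrec P)
    (hσ : Primrec σ) (hb : Primrec b) : Primrec fun a => keep (P a) N (σ a) (b a) :=
  filt (piece_prim hP (fst.comp hσ) (list_length.comp hP))
    (hN.comp ((((snd.comp (snd.comp (snd.comp hσ))).comp fst).pair snd).pair (hb.comp fst))).to₂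

theorem good_prim {P : α → List Pr} {σ : α → St} (hP : Primrec P) (hσ : Primrec σ) :
    Primrec₂ fun a => good (P a) N (σ a) :=
  (Primrec.and.comp (none_prim (fst.comp snd) (fst.comp (snd.comp (snd.comp (hσ.comp fst)))))
    (nat_le.comp (quo_prim (hP.comp fst) (fst.comp (hσ.comp fst)))
      (nat_mul.comp (list_length.comp (hP.comp fst)) (list_length.comp
        (keep_prim hN (hP.comp fst) (hσ.comp fst) snd)))).decide).to₂

theorem stay_prim {P : α → List Pr} {σ : α → St} (hP : Primrec P) (hσ : Primrec σ) :
    Primrec fun a => stay (P a) N (σ a) := by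
  have h1 := list_findIdx hP (good_prim hN hP hσ)
  have h2 := (list_getD (([], []) : Pr)).comp hP h1
  exact ite (nat_lt.comp h1 (list_length.comp hP))
    ((keep_prim hN hP hσ h2).pair ((fst.comp (snd.comp hσ)).pair
      ((list_cons.comp h2 (fst.comp (snd.comp (snd.comp hσ)))).pair (const 0))))
    ((fst.comp hσ).pair ((fst.comp (snd.comp hσ)).pair ((fst.comp (snd.comp (snd.comp hσ))).pair
      (succ.comp (snd.comp (snd.comp (snd.comp hσ)))))))

theorem step_prim {P : α → List Pr} {σ : α → St} {j : α → ℕ} (hP : Primrec P) (hσ : Primrec σ)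
    (hj : Primrec j) : Primrec fun a => step (P a) N (j a) (σ a) :=
  ite (nat_lt.comp hj (list_length.comp hP))
    ((piece_prim hP (fst.comp hσ) hj).pair ((list_cons.comp ((list_getD (([], []) : Pr)).comp hP hj)
      (fst.comp (snd.comp hσ))).pair ((fst.comp (snd.comp (snd.comp hσ))).pair (const 0))))
    (stay_prim hN hP hσ)

theorem trV_prim {P : α → List Pr} {S : α → List Str} {x : α → Str} {t : α → ℕ} (hP : Primrec P)
    (hS : Primrec S) (hx : Primrec x) (ht : Primrec t) :
    Primrec fun a => trV (P a) N (S a) (x a) (t a) := by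
  have h1 : Primrec fun z : α × ℕ × St => z.2.2.1.idxOf (x z.1) :=
    list_findIdx (fst.comp (snd.comp snd)) (beq_prim.comp snd (hx.comp (fst.comp fst))).to₂
  refine (nat_rec' ht (hS.pair (const (([], [], 0) : List Pr × List Pr × ℕ)))
    (step_prim hN (hP.comp fst) (snd.comp snd) (nat_div.comp h1
      (quo_prim (hP.comp fst) (fst.comp (snd.comp snd))))).to₂).of_eq fun a => ?_
  induction t a with
  | zero => rfl
  | succ n ih => rw [trV, ← ih]

theorem trW_prim {P : α → List Pr} {S : α → List Str} {G : α → ℕ → Pr → Bool} {t : α → ℕ}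
    (hP : Primrec P) (hS : Primrec S) (hG : Primrec fun z : (α × ℕ) × Pr => G z.1.1 z.1.2 z.2)
    (ht : Primrec t) : Primrec fun a => trW (P a) N (S a) (G a) (t a) := by
  have h1 : Primrec fun z : α × ℕ × St =>
      (P z.1).findIdx fun b => (z.2.2.2.1.lookup b.1).isNone && G z.1 z.2.1 b :=
    list_findIdx (hP.comp fst) (Primrec.and.comp (none_prim (fst.comp snd)
      (fst.comp (snd.comp (snd.comp (snd.comp fst))))) (hG.comp (((fst.comp fst).pair
        (fst.comp (snd.comp fst))).pair snd))).to₂
  refine (nat_rec' ht (hS.pair (const (([], [], 0) : List Pr × List Pr × ℕ)))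
    (step_prim hN (hP.comp fst) (snd.comp snd) h1).to₂).of_eq fun a => ?_
  induction t a with
  | zero => rfl
  | succ n ih => rw [trW, ← ih]

omit hN

theorem trW_congr {P : List Pr} {S : List Str} {G G' : ℕ → Pr → Bool} :
    ∀ t, (∀ s < t, G s = G' s) → trW P N S G t = trW P N S G' t
  | 0, _ => rfl
  | t + 1, h => by rw [trW, trW, trW_congr t fun s hs => h s (by omega), h t (by omega)]

/-- All strings of length at most `m`. -/
def all : ℕ → List Str
  | 0 => [[]]
  | m + 1 => [] :: ((all m).map (List.cons false) ++ (all m).map (List.cons true))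

theorem all_len : ∀ m, (all m).length + 1 = 2 ^ (m + 1)
  | 0 => rfl
  | m + 1 => by
    have := all_len m
    simp only [all, List.length_cons, List.length_append, List.length_map]
    omega

theorem mem_all : ∀ {m : ℕ} {s : Str}, s ∈ all m ↔ s.length ≤ m
  | 0, s => by simp [all]
  | m + 1, [] => by simp [all]
  | m + 1, b :: s => by cases b <;> simp [all, mem_all]

theorem all_nodup : ∀ m, (all m).Nodup
  | 0 => by simp [all]
  | m + 1 => by
    have h := fun b : Bool => (all_nodup m).map (List.cons_injective (a := b))
    refine List.nodup_cons.2 ⟨by simp, List.Nodup.append (h _) (h _) ?_⟩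
    intro s h1 h2
    obtain ⟨_, -, rfl⟩ := List.mem_map.1 h1
    simp at h2

theorem all_prim : Primrec all := by
  have h := fun b : Bool => list_map (α := ℕ × List Str) snd (list_cons.comp (const b) snd).to₂
  refine (nat_rec₁ [[]] (list_cons.comp (const []) (list_append.comp (h false) (h true))).to₂).of_eq
    fun n => ?_
  induction n with
  | zero => rfl
  | succ n ih => rw [all, ← ih]

def prs (m : ℕ) : List Pr := (all m).flatMap fun p => (all m).map fun s => (p, s)

theorem prs_prim : Primrec prs :=
  list_flatMap all_prim (list_map (all_prim.comp fst) ((snd.comp fst).pair snd).to₂).to₂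

theorem mem_prs {m : ℕ} {p s : Str} (hp : p.length ≤ m) (hs : s.length ≤ m) : (p, s) ∈ prs m := by
  simp [prs, mem_all, hp, hs]

def ht (m : ℕ) : ℕ := (2 * m + 2) * 2 ^ (m + 3)

def sup (m : ℕ) : List Str :=
  (all (ht m)).map fun y => ((List.range m).map fun _ => true) ++ false :: y

theorem pow2 : Primrec fun n : ℕ => 2 ^ n :=
  (Primrec₂.unpaired'.1 Nat.Primrec.pow).comp (Primrec.const 2) Primrec.id

theorem sup_prim : Primrec sup :=
  list_map (all_prim.comp (nat_mul.comp (nat_add.comp nat_double (const 2))
    (pow2.comp (nat_add.comp .id (const 3))))) (list_append.comp (list_map (list_range.comp fst)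
      (const true).to₂) (list_cons.comp (const false) snd)).to₂

theorem idx_ones (m : ℕ) (y : Str) : (List.replicate m true ++ false :: y).idxOf false = m := by
  induction m with
  | zero => rfl
  | succ m ih => simpa [List.replicate_succ, List.idxOf_cons] using ih

theorem sup_spec {m : ℕ} {x : Str} (h : x ∈ sup m) :
    x.idxOf false = m ∧ x.length ≤ m + 1 + ht m := by
  obtain ⟨y, hy, rfl⟩ := List.mem_map.1 h
  have := mem_all.1 hy
  simp only [List.map_const', List.length_range, idx_ones, List.length_append,
    List.length_replicate, List.length_cons, true_and]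
  omega

theorem sup_nodup (m : ℕ) : (sup m).Nodup :=
  (all_nodup _).map fun _ _ h => by simpa using h

theorem sup_big (m : ℕ) : ((prs m).length + 1) ^ (4 * ((prs m).map Prod.fst).toFinset.card + 1) ≤
    (sup m).length := by
  have h1 : ((prs m).map Prod.fst).toFinset.card ≤ (all m).length :=
    le_trans (Finset.card_le_card fun p hp => by
      simp only [prs, List.mem_toFinset, List.mem_map, List.mem_flatMap] at hp ⊢
      obtain ⟨_, ⟨q, hq, _, _, rfl⟩, rfl⟩ := hp
      exact hq) (List.toFinset_card_le _)
  have h2 : (prs m).length = (all m).length * (all m).length := by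
    simp [prs, List.length_flatMap]
  have h3 := all_len m
  have h4 := all_len (ht m)
  have h5 : (prs m).length + 1 ≤ 2 ^ (2 * m + 2) := by
    rw [h2, show 2 * m + 2 = (m + 1) + (m + 1) by ring, pow_add, ← h3]
    nlinarith
  have h6 : 4 * ((prs m).map Prod.fst).toFinset.card + 1 ≤ 2 ^ (m + 3) := by
    rw [show m + 3 = (m + 1) + 2 by ring, pow_add]
    omega
  refine (Nat.pow_le_pow_left h5 _).trans ((Nat.pow_le_pow_right (by positivity) h6).trans ?_)
  rw [← pow_mul, sup, List.length_map, ← ht]
  have : 0 < 2 ^ ht m := by positivity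
  omega

def val : Str → ℕ
  | [] => 0
  | b :: l => 2 * val l + b.toNat

theorem val_prim : Primrec val :=
  (list_foldr .id (const 0) (h := fun _ z => 2 * z.2 + z.1.toNat) (nat_add.comp
    (nat_double.comp (snd.comp snd)) ((dom_bool _).comp (fst.comp snd))).to₂).of_eq fun l => by
    induction l with
    | nil => rfl
    | cons b l ih => rw [val, ← ih]; rfl

theorem val_surj : ∀ l v, v < 2 ^ l → ∃ p : Str, p.length = l ∧ val p = v
  | 0, v, h => ⟨[], rfl, by simp [val] at h ⊢; omega⟩
  | l + 1, v, h => by
    obtain ⟨p, h1, h2⟩ := val_surj l (v / 2) (by rw [pow_succ] at h; omega)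
    refine ⟨decide (v % 2 = 1) :: p, by simp [h1], ?_⟩
    rw [val, h2]
    by_cases c : v % 2 = 1 <;> simp [c] <;> omega

/-- Split a program into a number and the rest. -/
def dec (p : Str) : ℕ × Str :=
  (val ((p.drop (p.idxOf false + 1)).take (p.idxOf false)),
    (p.drop (p.idxOf false + 1)).drop (p.idxOf false))

theorem idx_prim : Primrec fun p : Str => p.idxOf false :=
  list_findIdx .id ((dom_bool fun b => b == false).comp snd).to₂

theorem dec_prim : Primrec dec :=
  (val_prim.comp (list_take.comp idx_prim (list_drop.comp (succ.comp idx_prim) .id))).pair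
    (list_drop.comp idx_prim (list_drop.comp (succ.comp idx_prim) .id))

theorem dec_surj (n : ℕ) (q : Str) :
    ∃ p, dec p = (n, q) ∧ p.length = q.length + 2 * Nat.log 2 n + 3 := by
  obtain ⟨w, h1, h2⟩ := val_surj _ n (Nat.lt_pow_succ_log_self one_lt_two n)
  refine ⟨List.replicate w.length true ++ false :: (w ++ q), ?_, ?_⟩
  · have : (List.replicate w.length true ++ false :: (w ++ q)).drop (w.length + 1) = w ++ q := by
      simp [List.drop_append]
    rw [dec, idx_ones, this]
    simp [h2]
  · simp [h1]; omega

end Pool.Agent.H.MP_d04dff_lc
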