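import Pool.Agent.H.MP_d04dff_lc.B
import Pool.Agent.Lib.helper21.Fn

set_option autoImplicit false

/-! Plain complexity with a condition and with an oracle. -/

namespace Pool.Agent.H.MP_d04dff_lc

open Filter Encodable Pool.Agent.Lib.helper22 Pool.Agent.Lib.helper21
open Nat.Partrec (Code)
open Nat.Partrec.Code

/-- Length of a shortest description of `s`. -/
noncomputable def K (D : List Bool →. List Bool) (s : List Bool) : ℕ :=
  sInf {n | ∃ p, s ∈ D p ∧ p.length = n}

/-- `D` describes everything `E` does, with at most `c` more bits. -/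
def Best (D E : List Bool →. List Bool) (c : ℕ) : Prop :=
  ∀ p s, s ∈ E p → ∃ q, s ∈ D q ∧ q.length ≤ p.length + c

/-- Optimal conditional machine. -/
def OptC (U : List Bool → List Bool →. List Bool) : Prop :=
  Partrec₂ U ∧ ∀ V : List Bool → List Bool →. List Bool, Partrec₂ V →
    ∃ c, ∀ y, Best (fun p => U p y) (fun p => V p y) c

def orc (X : ℕ → Bool) : ℕ →. ℕ := fun n => Part.some (X n).toNat

/-- Optimal machine with oracle `X`. -/
def OptO (X : ℕ → Bool) (W : List Bool →. List Bool) : Prop :=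
  RecursiveIn {orc X} W ∧ ∀ V : List Bool →. List Bool, RecursiveIn {orc X} V → ∃ c, Best W V c

/-- Simulation with logarithmic precision. -/
def Sim (U : List Bool → List Bool →. List Bool) (W : List Bool →. List Bool)
    (x : ℕ → List Bool) : Prop :=
  ∃ c : ℝ, ∀ n ≥ 1, ∀ s : List Bool, s.length ≤ n →
    |(K (fun p => U p (x n)) s : ℝ) - K W s| ≤ c * Real.logb 2 n + c

theorem K_le {D : Str →. Str} {p s : Str} (h : s ∈ D p) : K D s ≤ p.length :=
  Nat.sInf_le ⟨p, h, rfl⟩

theorem K_spec {D : Str →. Str} {p s : Str} (h : s ∈ D p) : ∃ q, s ∈ D q ∧ q.length = K D s :=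
  Nat.sInf_mem (s := {n | ∃ p, s ∈ D p ∧ p.length = n}) ⟨_, p, h, rfl⟩

theorem Best.le {D E : Str →. Str} {c : ℕ} (h : Best D E c) {p s : Str} (hs : s ∈ E p) :
    K D s ≤ p.length + c :=
  let ⟨_, h1, h2⟩ := h p s hs; (K_le h1).trans h2

theorem approxC {U : Str → Str →. Str} (hU : Partrec₂ U) : ∃ N : ℕ → Str → Pr → Bool,
    (Primrec fun z : (ℕ × Str) × Pr => N z.1.1 z.1.2 z.2) ∧
    (∀ t t' y a, t ≤ t' → N t y a = true → N t' y a = true) ∧
    ∀ y p s, s ∈ U p y ↔ ∃ t, N t y (p, s) = true := by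
  obtain ⟨c, hc⟩ := exists_code.1 hU
  refine ⟨fun t y a => decide (evaln t c (encode (a.1, y)) = some (encode a.2)),
    (Primrec.eq.comp (primrec_evaln.comp (((Primrec.fst.comp Primrec.fst).pair
      (Primrec.const c)).pair (Primrec.encode.comp ((Primrec.fst.comp Primrec.snd).pair
        (Primrec.snd.comp Primrec.fst))))) (Primrec.option_some.comp (Primrec.encode.comp
          (Primrec.snd.comp Primrec.snd)))).decide, fun t t' y a h h1 => ?_, fun y p s => ?_⟩
  · simp only [decide_eq_true_eq] at h1 ⊢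
    exact evaln_mono h h1
  · simp only [decide_eq_true_eq]
    refine Iff.trans ?_ evaln_complete
    rw [hc]
    simp only [encodek, Part.coe_some, Part.bind_some, Part.mem_map_iff, encode_inj,
      exists_eq_right]

theorem approxO {X : ℕ → Bool} {W : Str →. Str} (hW : RecursiveIn {orc X} W) :
    ∃ g : ℕ → ℕ → Pr → Bool, (Primrec fun z : (ℕ × ℕ) × Pr => g z.1.1 z.1.2 z.2) ∧
      (∀ t p s, g t (Fn.cd X t.unpair.1) (p, s) = true → s ∈ W p) ∧
      ∀ p s, s ∈ W p → ∀ t', ∃ t ≥ t', g t (Fn.cd X t.unpair.1) (p, s) = true := by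
  obtain ⟨c, hc⟩ := Pool.Agent.Lib.helper22.exists_code hW
  let o : ℕ → ℕ → Option ℕ := fun a i =>
    if i < a.unpair.1 then some (Fn.tb a.unpair.2 i).toNat else none
  have ho : Computable₂ o := (Primrec.ite (Primrec.nat_lt.comp Primrec.snd (Primrec.fst.comp
    (Primrec.unpair.comp Primrec.fst))) (Primrec.option_some.comp (Fn.toNat_prim.comp
      (Fn.tb_prim.comp (Primrec.snd.comp (Primrec.unpair.comp Primrec.fst)) Primrec.snd)))
      (Primrec.const none)).to_comp
  have h1 : Partrec₂ fun a n => ev (fun i => (o a i : Part ℕ)) c n :=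
    Fn.ev_partrec (o := fun a i => (o a i : Part ℕ)) (Computable.ofOption ho) c
  have h2 : Partrec fun z : ℕ => ev (fun i => (o z.unpair.1 i : Part ℕ)) c z.unpair.2 :=
    h1.comp (Computable.fst.comp Computable.unpair) (Computable.snd.comp Computable.unpair)
  obtain ⟨d, hd⟩ := Nat.Partrec.Code.exists_code.1 (Partrec.nat_iff.1 h2)
  have h3 : ∀ k i v, v ∈ (o (Nat.pair k (Fn.cd X k)) i : Part ℕ) ↔ i < k ∧ v = (X i).toNat := by
    intro k i v
    by_cases h : i < k <;> simp [o, h, Fn.tb_cd]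
  have h4 : ∀ p s : Str, encode s ∈ ev (orc X) c (encode p) ↔ s ∈ W p := fun p s => by
    rw [hc]
    simp only [encodek, Part.coe_some, Part.bind_some, Part.mem_map_iff, encode_inj,
      exists_eq_right]
  have u1 : Primrec fun z : (ℕ × ℕ) × Pr => z.1.1.unpair :=
    Primrec.unpair.comp (Primrec.fst.comp Primrec.fst)
  refine ⟨fun t v a => decide (evaln t.unpair.2 d (Nat.pair (Nat.pair t.unpair.1 v) (encode a.1))
    = some (encode a.2)), (Primrec.eq.comp (primrec_evaln.comp (((Primrec.snd.comp u1).pair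
      (Primrec.const d)).pair (Primrec₂.natPair.comp (Primrec₂.natPair.comp (Primrec.fst.comp u1)
        (Primrec.snd.comp Primrec.fst)) (Primrec.encode.comp (Primrec.fst.comp Primrec.snd)))))
      (Primrec.option_some.comp (Primrec.encode.comp (Primrec.snd.comp Primrec.snd)))).decide,
    fun t p s h => ?_, fun p s h t' => ?_⟩
  · have hv := evaln_sound (of_decide_eq_true h)
    rw [hd] at hv
    simp only [Nat.unpair_pair] at hv
    obtain ⟨_, h5⟩ := (ev_eventually (l := (⊤ : Filter Unit)) (G := fun _ => orc X) (fun n v hv =>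
      Eventually.of_forall fun _ => by simp [orc, ((h3 _ _ _).1 hv).2]) c _ _ hv).exists
    exact (h4 _ _).1 h5
  · obtain ⟨k, hk⟩ := (ev_eventually (l := atTop)
      (G := fun k i => (o (Nat.pair k (Fn.cd X k)) i : Part ℕ)) (g := orc X) (fun n v hv => by
        filter_upwards [eventually_gt_atTop n] with k hk
        exact (h3 _ _ _).2 ⟨hk, by simpa [orc] using hv⟩) c _ _ ((h4 _ _).2 h)).exists
    obtain ⟨t, ht⟩ := evaln_complete.1 (show encode s ∈ d.eval (Nat.pair (Nat.pair k (Fn.cd X k))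
      (encode p)) by rw [hd]; simpa only [Nat.unpair_pair] using hk)
    refine ⟨Nat.pair k (max t t'), (le_max_right _ _).trans (Nat.right_le_pair _ _), ?_⟩
    simp only [Nat.unpair_pair, decide_eq_true_eq]
    exact evaln_mono (le_max_left t t') ht

theorem search (X : ℕ → Bool) {f : Str → ℕ → ℕ → Option Str}
    (hf : Primrec fun z : (Str × ℕ) × ℕ => f z.1.1 z.1.2 z.2) :
    RecursiveIn {orc X} fun a => Nat.rfindOpt fun t => f a t (Fn.cd X t) := by
  let E : ℕ → ℕ → ℕ := fun z v =>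
    encode ((decode (α := Str) z.unpair.1).bind fun a => f a z.unpair.2 v)
  have hE : Primrec₂ E := Primrec.encode.comp (Primrec.option_bind (Primrec.decode.comp
    (Primrec.fst.comp (Primrec.unpair.comp Primrec.fst))) (hf.comp ((Primrec.snd.pair
      (Primrec.snd.comp (Primrec.unpair.comp (Primrec.fst.comp Primrec.fst)))).pair
        (Primrec.snd.comp Primrec.fst))).to₂)
  have tot : ∀ F : ℕ → ℕ, Primrec F → Nat.RecursiveIn {orc X} fun z =>
      Part.some (F (E z (Fn.cd X z.unpair.2))) := fun F hF =>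
    RecursiveIn.iff_nat.1 (Fn.red X (ψ := fun z v => Part.some (F (E z v)))
      (hF.comp hE).to_comp.partrec (Primrec.snd.comp Primrec.unpair).to_comp fun _ => rfl)
  have h1 := Nat.RecursiveIn.comp (tot _ Primrec.pred) (Nat.RecursiveIn.pair
    (Primrec.nat_iff.1 Primrec.id).recursiveIn (Nat.RecursiveIn.rfind
      (tot (fun e => 1 - e) (Primrec.nat_sub.comp (Primrec.const 1) Primrec.id))))
  refine h1.of_eq fun n => ?_
  simp only [E, Nat.unpair_pair, id, Seq.seq, Part.coe_some, Part.map_eq_map, Part.map_some,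
    Part.bind_eq_bind, Part.bind_some, Part.bind_map]
  cases h : decode (α := Str) n with
  | none =>
    refine Part.ext fun v => ?_
    simp
  | some a =>
    simp only [Option.bind_some, Part.coe_some, Part.bind_some, Nat.rfindOpt, Part.map_bind]
    have : (fun t => Part.some (decide (1 - encode (f a t (Fn.cd X t)) = 0))) =
        fun t => ((f a t (Fn.cd X t)).isSome : Part Bool) := funext fun t => by
      cases f a t (Fn.cd X t) <;> simp
    rw [this]
    refine Part.ext fun v => ?_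
    simp only [Part.mem_bind_iff]
    refine exists_congr fun t => and_congr_right fun ht => ?_
    have := Nat.rfind_spec ht
    cases h2 : f a t (Fn.cd X t) with
    | none => simp [h2] at this
    | some b => simp

theorem cd_mod (X : ℕ → Bool) {k t : ℕ} (h : k ≤ t) : Fn.cd X t % 2 ^ k = Fn.cd X k := by
  refine Nat.eq_of_testBit_eq fun i => ?_
  rw [Nat.testBit_mod_two_pow]
  by_cases hi : i < k
  · have h1 := Fn.tb_cd X t i (by omega)
    have h2 := Fn.tb_cd X k i hi
    simp only [Fn.tb] at h1 h2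
    simp [hi, h1, h2]
  · rw [Nat.testBit_lt_two_pow ((Fn.cd_lt X k).trans_le
      (Nat.pow_le_pow_right (by norm_num) (by omega)))]
    simp [hi]

theorem baseC {U : Str → Str →. Str} (hU : OptC U) :
    ∃ b, ∀ y s, ∃ q, s ∈ U q y ∧ q.length ≤ s.length + b :=
  let ⟨b, hb⟩ := hU.2 (fun p _ => Part.some p) Computable.fst.partrec
  ⟨b, fun y s => hb y s s (Part.mem_some s)⟩

theorem baseO {X : ℕ → Bool} {W : Str →. Str} (hW : OptO X W) :
    ∃ b, ∀ s, ∃ q, s ∈ W q ∧ q.length ≤ s.length + b :=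
  let ⟨b, hb⟩ := hW.2 _ RecursiveIn.some
  ⟨b, fun s => hb s s (Part.mem_some s)⟩

theorem log_add (n : ℕ) (hn : 1 ≤ n) : ∀ b, Nat.log 2 (n + b) ≤ Nat.log 2 n + b
  | 0 => le_rfl
  | b + 1 => by
    have := log_add n hn b
    have h2 := Nat.log_mul_base (n := n + b) one_lt_two (by omega)
    have h3 := Nat.log_mono_right (b := 2) (show n + (b + 1) ≤ (n + b) * 2 by omega)
    omega

theorem V_part {N : ℕ → Str → Pr → Bool}
    (hN : Primrec fun z : (ℕ × Str) × Pr => N z.1.1 z.1.2 z.2) :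
    Partrec₂ fun p y : Str => Nat.rfindOpt fun t =>
      (trV (prs (y.idxOf false)) N (sup (y.idxOf false)) y t).2.1.lookup p := by
  have h0 : Primrec fun z : (Str × Str) × ℕ => z.1.2 := Primrec.snd.comp Primrec.fst
  have h1 : Primrec fun z : (Str × Str) × ℕ => z.1.2.idxOf false := idx_prim.comp h0
  have h2 : Primrec fun z : (Str × Str) × ℕ =>
      trV (prs (z.1.2.idxOf false)) N (sup (z.1.2.idxOf false)) z.1.2 z.2 :=
    trV_prim hN (prs_prim.comp h1) (sup_prim.comp h1) h0 Primrec.snd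
  have h3 : Primrec fun z : (Str × Str) × ℕ =>
      (trV (prs (z.1.2.idxOf false)) N (sup (z.1.2.idxOf false)) z.1.2 z.2).2.1.lookup z.1.1 :=
    look_prim (Primrec.fst.comp Primrec.fst) (Primrec.fst.comp (Primrec.snd.comp h2))
  exact Partrec.rfindOpt (α := Str × Str) (f := fun z t =>
    (trV (prs (z.2.idxOf false)) N (sup (z.2.idxOf false)) z.2 t).2.1.lookup z.1) h3.to_comp

theorem W_prim {N : ℕ → Str → Pr → Bool}
    (hN : Primrec fun z : (ℕ × Str) × Pr => N z.1.1 z.1.2 z.2) {g : ℕ → ℕ → Pr → Bool}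
    (hg : Primrec fun z : (ℕ × ℕ) × Pr => g z.1.1 z.1.2 z.2) :
    Primrec fun z : (Str × ℕ) × ℕ => (trW (prs (dec z.1.1).1) N (sup (dec z.1.1).1)
      (fun u => g u (z.2 % 2 ^ u.unpair.1)) z.1.2).2.2.1.lookup (dec z.1.1).2 := by
  have d1 : Primrec fun z : (Str × ℕ) × ℕ => dec z.1.1 :=
    dec_prim.comp (Primrec.fst.comp Primrec.fst)
  have d0 : Primrec fun z : (((Str × ℕ) × ℕ) × ℕ) × Pr => z.1.1.2 % 2 ^ z.1.2.unpair.1 :=
    Primrec.nat_mod.comp (Primrec.snd.comp (Primrec.fst.comp Primrec.fst)) (pow2.comp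
      (Primrec.fst.comp (Primrec.unpair.comp (Primrec.snd.comp Primrec.fst))))
  have d2 : Primrec fun z : (((Str × ℕ) × ℕ) × ℕ) × Pr =>
      g z.1.2 (z.1.1.2 % 2 ^ z.1.2.unpair.1) z.2 :=
    (hg.comp (((Primrec.snd.comp Primrec.fst).pair d0).pair Primrec.snd)).of_eq fun _ => rfl
  have e1 : Primrec fun z : (Str × ℕ) × ℕ => (dec z.1.1).1 := Primrec.fst.comp d1
  have e2 := prs_prim.comp e1
  have e3 := sup_prim.comp e1
  have e4 : Primrec fun z : (Str × ℕ) × ℕ => z.1.2 := Primrec.snd.comp Primrec.fst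
  have e5 := trW_prim hN (G := fun (z : (Str × ℕ) × ℕ) u => g u (z.2 % 2 ^ u.unpair.1)) e2 e3 d2 e4
  have d3 : Primrec fun z : (Str × ℕ) × ℕ => trW (prs (dec z.1.1).1) N (sup (dec z.1.1).1)
      (fun u => g u (z.2 % 2 ^ u.unpair.1)) z.1.2 := e5
  exact look_prim (Primrec.snd.comp d1) (Primrec.fst.comp (Primrec.snd.comp (Primrec.snd.comp d3)))

theorem upper {U : Str → Str →. Str} (hU : OptC U) {X : ℕ → Bool} {W : Str →. Str}
    (hW : OptO X W) : ∃ x, Sim U W x ∧ ∃ d : ℕ, ∀ n, (x n).length ≤ d * (n + 1) * 2 ^ n := by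
  obtain ⟨N, hN, Nm, Ns⟩ := approxC hU.1
  obtain ⟨g, hg, gs, gc⟩ := approxO hW.1
  obtain ⟨b₁, hb₁⟩ := baseC hU
  obtain ⟨b₂, hb₂⟩ := baseO hW
  let G : ℕ → Pr → Bool := fun t => g t (Fn.cd X t.unpair.1)
  have co := fun m => core (N := N) (G := G) (sup_nodup m) (sup_big m) Nm
    (fun t t' y p s s' h h' => Part.mem_unique ((Ns _ _ _).2 ⟨t, h⟩) ((Ns _ _ _).2 ⟨t', h'⟩))
    (fun t a t' h => gc _ _ (gs t a.1 a.2 h) t')
    (fun t t' p s s' h h' => Part.mem_unique (gs _ _ _ h) (gs _ _ _ h'))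
  choose x hx h1 h2 using co
  obtain ⟨c₁, hc₁⟩ := hU.2 _ (V_part hN)
  obtain ⟨c₂, hc₂⟩ := hW.2 _ (search X (f := fun p t v => (trW (prs (dec p).1) N (sup (dec p).1)
      (fun u => g u (v % 2 ^ u.unpair.1)) t).2.2.1.lookup (dec p).2) (W_prim hN hg))
  refine ⟨fun n => x (n + (b₁ + b₂)), ⟨(c₁ + c₂ + 2 * (b₁ + b₂) + 3 : ℕ), fun n hn s hs => ?_⟩,
    (2 * (b₁ + b₂) + 3) * 2 ^ (b₁ + b₂ + 3), fun n => ?_⟩
  · set m := n + (b₁ + b₂) with hm
    have e1 : K (fun p => U p (x m)) s ≤ K W s + c₁ := by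
      obtain ⟨q₀, h3, h4⟩ := hb₂ s
      obtain ⟨q, h5, h6⟩ := K_spec h3
      have h7 := K_le h3
      have := h1 m (q, s) (mem_prs (by omega) (by omega)) (let ⟨t, _, h⟩ := gc _ _ h5 0; ⟨t, h⟩)
      rw [← h6]
      refine (hc₁ (x m)).le ?_
      rw [(sup_spec (hx m)).1]
      exact this
    have e2 : K W s ≤ K (fun p => U p (x m)) s + 2 * Nat.log 2 m + 3 + c₂ := by
      obtain ⟨q₀, h3, h4⟩ := hb₁ (x m) s
      obtain ⟨q, h5, h6⟩ := K_spec (D := fun p => U p (x m)) h3
      have h7 := K_le (D := fun p => U p (x m)) h3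
      have := h2 m (q, s) (mem_prs (by omega) (by omega)) ((Ns _ _ _).1 h5)
      obtain ⟨p, h8, h9⟩ := dec_surj m q
      rw [← h6, ← h9]
      refine hc₂.le ?_
      rw [h8]
      have e : ∀ t, trW (prs m) N (sup m) (fun u => g u (Fn.cd X t % 2 ^ u.unpair.1)) t =
          trW (prs m) N (sup m) G t := fun t => trW_congr t fun u hu => by
        rw [cd_mod X (u.unpair_left_le.trans hu.le)]
      simpa only [e] using this
    have e3 := log_add n hn (b₁ + b₂)
    rw [← hm] at e3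
    have e4 : (Nat.log 2 n : ℝ) ≤ Real.logb 2 n := by simpa using Real.natLog_le_logb n 2
    have e5 : (K W s : ℝ) ≤ K (fun p => U p (x m)) s + 2 * Nat.log 2 n +
        (c₁ + c₂ + 2 * (b₁ + b₂) + 3 : ℕ) := by
      exact_mod_cast (by omega)
    have e6 : (K (fun p => U p (x m)) s : ℝ) ≤ K W s + (c₁ + c₂ + 2 * (b₁ + b₂) + 3 : ℕ) := by
      exact_mod_cast (by omega)
    have e7 : (2 : ℝ) ≤ (c₁ + c₂ + 2 * (b₁ + b₂) + 3 : ℕ) := by exact_mod_cast (by omega)
    have e8 : (0 : ℝ) ≤ Nat.log 2 n := by positivity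
    rw [abs_le]
    constructor <;> nlinarith
  · refine (sup_spec (hx _)).2.trans ?_
    generalize b₁ + b₂ = b
    have h3 : 1 ≤ 2 ^ (n + b + 3) := Nat.one_le_two_pow
    have h4 : (2 * b + 3) * 2 ^ (b + 3) * (n + 1) * 2 ^ n =
      ((2 * b + 3) * (n + 1)) * 2 ^ (n + b + 3) := by ring
    have h5 : n + b + 1 ≤ 2 ^ (n + b + 3) := (Nat.lt_two_pow_self.trans_le
      (Nat.pow_le_pow_right (by norm_num) (by omega)))
    have h6 : (2 * (n + b) + 3) * 2 ^ (n + b + 3) ≤ ((2 * b + 3) * (n + 1)) * 2 ^ (n + b + 3) :=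
      Nat.mul_le_mul_right _ (by nlinarith)
    rw [h4, ht]
    nlinarith

theorem few {D : Str →. Str} {n : ℕ} (F : Finset Str) (h : ∀ s ∈ F, ∃ p, s ∈ D p ∧ p.length ≤ n) :
    F.card < 2 ^ (n + 1) := by
  classical
  choose! p hp using h
  have := Finset.card_le_card_of_injOn (t := (all n).toFinset) p
    (fun s hs => by simpa [mem_all] using (hp s hs).2)
    fun s hs s' hs' e => Part.mem_unique (hp s hs).1 (e ▸ (hp s' hs').1)
  have h2 := List.toFinset_card_le (all n)
  have h3 := all_len n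
  omega

theorem hard {U : Str → Str →. Str} (hU : OptC U) (n k : ℕ) : ∃ t : Str → Str,
    (∀ w, (t w).length = n + 2) ∧ ∀ x : Str, x.length < 2 ^ k →
      ∃ w : Str, w.length = k ∧ n < K (fun p => U p x) (t w) := by
  classical
  obtain ⟨b, hb⟩ := baseC hU
  let B : ℕ → Finset Str := fun k => (Finset.univ : Finset (Fin k → Bool)).image List.ofFn
  have mB : ∀ {k : ℕ} {p : Str}, p ∈ B k ↔ p.length = k := fun {k p} => by
    simp only [B, Finset.mem_image, Finset.mem_univ, true_and]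
    exact ⟨fun ⟨f, h⟩ => h ▸ List.length_ofFn, fun h => by
      subst h; exact ⟨p.get, List.ofFn_get p⟩⟩
  have cB : ∀ k, (B k).card = 2 ^ k := fun k => by
    rw [Finset.card_image_of_injective _ List.ofFn_injective]
    simp
  let E : Str → Finset Str := fun x => (B (n + 2)).filter fun s => K (fun p => U p x) s ≤ n
  have cE : ∀ x, (E x).card ≤ 2 ^ (n + 1) := fun x => (few (D := fun p => U p x) _ fun s hs => by
    obtain ⟨q, h1, -⟩ := hb x s
    obtain ⟨p, h2, h3⟩ := K_spec (D := fun p => U p x) h1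
    exact ⟨p, h2, h3.trans_le (Finset.mem_filter.1 hs).2⟩).le
  have h1 : ((all (2 ^ k - 1)).toFinset.biUnion fun x =>
      Fintype.piFinset fun _ : B k => E x).card <
        (Fintype.piFinset fun _ : B k => B (n + 2)).card := by
    refine (Finset.card_biUnion_le_card_mul _ _ ((2 ^ (n + 1)) ^ 2 ^ k) fun x _ => ?_).trans_lt ?_
    · rw [Fintype.card_piFinset, Finset.prod_const, Finset.card_univ, Fintype.card_coe, cB]
      exact Nat.pow_le_pow_left (cE x) _
    · rw [Fintype.card_piFinset, Finset.prod_const, Finset.card_univ, Fintype.card_coe, cB, cB,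
        pow_succ' 2 (n + 1), mul_pow]
      refine Nat.mul_lt_mul_of_pos_right ?_ (by positivity)
      have h2 := List.toFinset_card_le (all (2 ^ k - 1))
      have h3 := all_len (2 ^ k - 1)
      rw [Nat.sub_add_cancel Nat.one_le_two_pow] at h3
      omega
  obtain ⟨f, h2, h3⟩ := Finset.exists_mem_notMem_of_card_lt_card h1
  refine ⟨fun w => if h : w ∈ B k then f ⟨w, h⟩ else List.replicate (n + 2) true, fun w => ?_,
    fun x hx => ?_⟩
  · dsimp only
    split_ifs with h
    · exact mB.1 (Fintype.mem_piFinset.1 h2 _)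
    · simp
  · by_contra c
    refine h3 (Finset.mem_biUnion.2 ⟨x, by simp only [List.mem_toFinset, mem_all]; omega,
      Fintype.mem_piFinset.2 fun w => Finset.mem_filter.2 ⟨Fintype.mem_piFinset.1 h2 _, ?_⟩⟩)
    by_contra c2
    exact c ⟨w.1, mB.1 w.2, by simpa [w.2] using c2⟩

theorem lower {U : Str → Str →. Str} (hU : OptC U) : ∃ X : ℕ → Bool, ∀ W, OptO X W →
    ∀ x, Sim U W x → ∃ d : ℕ, ∀ n, 2 ^ n ≤ (n + 2) ^ d * ((x n).length + 1) := by
  choose t ht1 ht2 using hard hU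
  let X : ℕ → Bool := fun i => ((decode (α := Str) i.unpair.1.unpair.2).map fun w =>
    (t i.unpair.1.unpair.1 w.length w).getD i.unpair.2 false).getD false
  refine ⟨X, fun W hW x ⟨c, hc⟩ => ?_⟩
  have d1 : Primrec fun z : (Str × ℕ) × ℕ => dec z.1.1 :=
    dec_prim.comp (Primrec.fst.comp Primrec.fst)
  have d2 : Primrec fun z : (Str × ℕ) × ℕ => (dec z.1.1).1 + 2 :=
    Primrec.nat_add.comp (Primrec.fst.comp d1) (Primrec.const 2)
  have d3 : Primrec fun z : (Str × ℕ) × ℕ => Nat.pair (dec z.1.1).1 (encode (dec z.1.1).2) :=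
    Primrec₂.natPair.comp (Primrec.fst.comp d1) (Primrec.encode.comp (Primrec.snd.comp d1))
  have d4 : Primrec fun z : (Str × ℕ) × ℕ => (List.range ((dec z.1.1).1 + 2)).map fun j =>
      Fn.tb z.2 (Nat.pair (Nat.pair (dec z.1.1).1 (encode (dec z.1.1).2)) j) :=
    Primrec.list_map (Primrec.list_range.comp d2) (Fn.tb_prim.comp (Primrec.snd.comp Primrec.fst)
      (Primrec₂.natPair.comp (d3.comp Primrec.fst) Primrec.snd)).to₂
  have d5 := Primrec.ite (Primrec.eq.comp (Primrec.snd.comp Primrec.fst)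
    (Primrec₂.natPair.comp d3 d2)) (Primrec.option_some.comp d4) (Primrec.const none)
  obtain ⟨c₀, h₀⟩ := hW.2 _ (search X (f := fun p u v =>
    if u = Nat.pair (Nat.pair (dec p).1 (encode (dec p).2)) ((dec p).1 + 2) then
      some ((List.range ((dec p).1 + 2)).map fun j =>
        Fn.tb v (Nat.pair (Nat.pair (dec p).1 (encode (dec p).2)) j)) else none) d5)
  have key : ∀ n w, K W (t n w.length w) ≤ w.length + 2 * Nat.log 2 n + 3 + c₀ := fun n w => by
    obtain ⟨p, h1, h2⟩ := dec_surj n w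
    rw [← h2]
    refine h₀.le ?_
    simp only [h1]
    have e : ((List.range (n + 2)).map fun j => Fn.tb (Fn.cd X (Nat.pair (Nat.pair n (encode w))
        (n + 2))) (Nat.pair (Nat.pair n (encode w)) j)) = t n w.length w := by
      refine List.ext_getElem (by simp [ht1]) fun j h3 h4 => ?_
      rw [List.getElem_map, List.getElem_range,
        Fn.tb_cd _ _ _ (Nat.pair_lt_pair_right _ (by simpa using h3))]
      simp [X, List.getElem?_eq_getElem h4]
    obtain ⟨s, hs⟩ := Part.dom_iff_mem.1 ((Nat.rfindOpt_dom (f := fun u =>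
      if u = Nat.pair (Nat.pair n (encode w)) (n + 2) then
        some ((List.range (n + 2)).map fun j => Fn.tb (Fn.cd X u)
          (Nat.pair (Nat.pair n (encode w)) j)) else none)).2 ⟨_, _, if_pos rfl⟩)
    obtain ⟨u, hu⟩ := Nat.rfindOpt_spec hs
    split_ifs at hu with h
    · rw [h, e] at hu
      rwa [Option.some.inj hu]
    · simp at hu
  refine ⟨2 * (2 * ⌈c⌉₊ + c₀ + 7), fun n => ?_⟩
  have h1 : 2 ^ ((2 * ⌈c⌉₊ + c₀ + 7) * (Nat.log 2 n + 1)) ≤ (n + 2) ^ (2 * (2 * ⌈c⌉₊ + c₀ + 7)) := by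
    rw [mul_comm, pow_mul, pow_mul]
    refine Nat.pow_le_pow_left ?_ _
    have := Nat.pow_log_le_add_one 2 n
    rw [pow_succ]
    nlinarith
  generalize hL : (2 * ⌈c⌉₊ + c₀ + 7) * (Nat.log 2 n + 1) = L at h1
  rcases le_or_gt n L with h | h
  · exact ((Nat.pow_le_pow_right (by norm_num) h).trans h1).trans
      (Nat.le_mul_of_pos_right _ (by omega))
  obtain ⟨k, hk⟩ := Nat.exists_eq_add_of_le h.le
  have h2 : 2 ^ k ≤ (x n).length := by
    by_contra c2
    obtain ⟨m, rfl⟩ : ∃ m, n = m + 2 := ⟨n - 2, by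
      have : 7 * 1 ≤ L := hL ▸ Nat.mul_le_mul (by omega) (by omega)
      omega⟩
    obtain ⟨w, hw, h3⟩ := ht2 m k _ (not_le.1 c2)
    have h4 := (abs_le.1 (hc (m + 2) (by omega) _ (ht1 m k w).le)).2
    have h5 := key m w
    rw [hw] at h5
    have h6 := Nat.log_mono_right (b := 2) (show m ≤ m + 2 by omega)
    have h7 : Real.logb 2 (m + 2 : ℕ) ≤ (Nat.log 2 (m + 2) + 1 : ℕ) := by
      rw [Real.logb_le_iff_le_rpow one_lt_two (by positivity), Real.rpow_natCast]
      exact_mod_cast (Nat.lt_pow_succ_log_self one_lt_two _).le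
    have h8 : 0 ≤ Real.logb 2 (m + 2 : ℕ) :=
      Real.logb_nonneg one_lt_two (by exact_mod_cast (by omega))
    have h9 := Nat.le_ceil c
    have h10 : c * Real.logb 2 (m + 2 : ℕ) ≤ ⌈c⌉₊ * (Nat.log 2 (m + 2) + 1 : ℕ) :=
      (mul_le_mul_of_nonneg_right h9 h8).trans (mul_le_mul_of_nonneg_left h7 (by positivity))
    have h11 : K (fun p => U p (x (m + 2))) (t m k w) ≤
        K W (t m k w) + ⌈c⌉₊ * (Nat.log 2 (m + 2) + 1) + ⌈c⌉₊ := by
      exact_mod_cast (show (K (fun p => U p (x (m + 2))) (t m k w) : ℝ) ≤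
        K W (t m k w) + ⌈c⌉₊ * (Nat.log 2 (m + 2) + 1 : ℕ) + ⌈c⌉₊ by linarith)
    rw [mul_add, add_mul, add_mul, mul_assoc] at hL
    rw [mul_add] at h11
    omega
  calc 2 ^ n = 2 ^ L * 2 ^ k := by rw [hk, pow_add]
    _ ≤ _ := Nat.mul_le_mul h1 (by omega)

end Pool.Agent.H.MP_d04dff_lc
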